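import Pool.Agent.Helper12_UNF.Stmts

set_option autoImplicit false

/-!
# Squad UNF, module ADC: the double coset property in an Artin group
-/

namespace Unf.H11

open Art Unf

theorem map_mem {S : Type} (M : CoxeterMatrix S) (q : Gp M →* M.Group)
    (hq : ∀ s, q (gen M s) = M.simple s) (D : Set S) :
    (P M D).map q = WP M D := by
  unfold P WP
  rw [MonoidHom.map_closure]
  congr 1
  rw [Set.image_image]
  exact Set.image_congr fun s _ => hq s

theorem wp_mono {S : Type} (M : CoxeterMatrix S) {D U : Set S} (h : D ⊆ U) :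
    WP M D ≤ WP M U := Subgroup.closure_mono (Set.image_mono h)

theorem p_mono {S : Type} (M : CoxeterMatrix S) {D U : Set S} (h : D ⊆ U) :
    P M D ≤ P M U := Subgroup.closure_mono (Set.image_mono h)

/-- **Module ADC.** -/
theorem adc (hWin : WinStmt) (hWdc : WdcStmt) (hRtr : RtrStmt) (hQuo : QuoStmt) : AdcStmt := by
  intro S _ M D U V x u v hx hu hv hxuv
  obtain ⟨q, hq⟩ := hQuo M
  have hmem : ∀ (D : Set S) (y : Gp M), y ∈ P M D → q y ∈ WP M D := fun D y hy => by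
    rw [← map_mem M q hq D]
    exact Subgroup.mem_map_of_mem q hy
  have hlift : ∀ (D : Set S) (w : M.Group), w ∈ WP M D → ∃ y ∈ P M D, q y = w := fun D w hw => by
    rw [← map_mem M q hq D] at hw
    exact Subgroup.mem_map.1 hw
  obtain ⟨a', ha', b', hb', hab⟩ := hWdc M D U V (q x) (q u) (q v) (hmem D x hx) (hmem U u hu)
    (hmem V v hv) (by rw [hxuv, map_mul])
  have hq1 : q u * q v = a' * b' := by rw [← map_mul, ← hxuv, hab]
  have hc : a'⁻¹ * q u = b' * (q v)⁻¹ := by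
    rw [inv_mul_eq_iff_eq_mul, ← mul_assoc, ← hq1, mul_assoc, mul_inv_cancel, mul_one]
  have hcU : a'⁻¹ * q u ∈ WP M U :=
    mul_mem (inv_mem (wp_mono M Set.inter_subset_right ha')) (hmem U u hu)
  have hcV : a'⁻¹ * q u ∈ WP M V := by
    rw [hc]
    exact mul_mem (wp_mono M Set.inter_subset_right hb') (inv_mem (hmem V v hv))
  have hcUV := hWin M U V _ hcU hcV
  obtain ⟨al, hal, hqal⟩ := hlift _ _ ha'
  obtain ⟨be, hbe, hqbe⟩ := hlift _ _ hb'
  obtain ⟨ga, hga, hqga⟩ := hlift _ _ hcUV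
  obtain ⟨r, hr1, hr2, hr3⟩ := hRtr M D q hq
  have hy1 : al⁻¹ * u * ga⁻¹ ∈ q.ker := by
    rw [MonoidHom.mem_ker, map_mul, map_mul, map_inv, map_inv, hqal, hqga, mul_inv_cancel]
  have hy2 : ga * v * be⁻¹ ∈ q.ker := by
    rw [MonoidHom.mem_ker, map_mul, map_mul, map_inv, hqbe, hqga, hc, mul_assoc b', inv_mul_cancel,
      mul_one, mul_inv_cancel]
  have hx' : al⁻¹ * x * be⁻¹ = (al⁻¹ * u * ga⁻¹) * (ga * v * be⁻¹) := by
    rw [hxuv]
    group
  have hxk : al⁻¹ * x * be⁻¹ ∈ q.ker := by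
    rw [hx']
    exact mul_mem hy1 hy2
  have hxD : al⁻¹ * x * be⁻¹ ∈ P M D :=
    mul_mem (mul_mem (inv_mem (p_mono M Set.inter_subset_left hal)) hx)
      (inv_mem (p_mono M Set.inter_subset_left hbe))
  have hyU : al⁻¹ * u * ga⁻¹ ∈ P M U :=
    mul_mem (mul_mem (inv_mem (p_mono M Set.inter_subset_right hal)) hu)
      (inv_mem (p_mono M Set.inter_subset_left hga))
  have hyV : ga * v * be⁻¹ ∈ P M V :=
    mul_mem (mul_mem (p_mono M Set.inter_subset_right hga) hv)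
      (inv_mem (p_mono M Set.inter_subset_right hbe))
  have e1 : r ⟨_, hxk⟩ = ⟨_, hxk⟩ := hr2 ⟨_, hxk⟩ hxD
  have e2 : (⟨_, hxk⟩ : q.ker) = ⟨_, hy1⟩ * ⟨_, hy2⟩ := Subtype.ext hx'
  have e3 : al⁻¹ * x * be⁻¹ = (r ⟨_, hy1⟩).1 * (r ⟨_, hy2⟩).1 := by
    have h := congrArg Subtype.val e1
    rw [e2, map_mul] at h
    rw [hx']
    exact h.symm
  refine ⟨al * (r ⟨_, hy1⟩).1, mul_mem hal (hr3 U ⟨_, hy1⟩ hyU), (r ⟨_, hy2⟩).1 * be,
    mul_mem (hr3 V ⟨_, hy2⟩ hyV) hbe, ?_⟩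
  have : x = al * (al⁻¹ * x * be⁻¹) * be := by group
  rw [this, e3]
  group

end Unf.H11
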